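import Pool.Agent.Helper66.SB.Goals

/-!
# Project SB (MP_d3128a_ag), packet LIM: the limit functionals at one point.
-/

set_option autoImplicit false

open Module MvPolynomial

noncomputable section

namespace Pool.Agent.Helper63.SB

open Pool.Agent.Helper66.SB Helper18.Shgh

/-- The linear map sending the monomial `σ^j τ^b'` to `ξ(T^(e+b')) s^(p b')`, and the other
monomials to `0`. -/
def Tht (ξ : Polynomial ℂ →ₗ[ℂ] ℂ) (j e : ℕ) (p : ℕ → ℕ) : R2 →ₗ[ℂ] Polynomial ℂ :=
  (basisMonomials (Fin 2) ℂ).constr ℂ fun v =>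
    if v 0 = j then Polynomial.monomial (p (v 1)) (ξ (Polynomial.X ^ (e + v 1))) else 0

theorem mono_eq (v : Fin 2 →₀ ℕ) :
    (basisMonomials (Fin 2) ℂ) v = (X 0 : R2) ^ (v 0) * X 1 ^ (v 1) := by
  rw [coe_basisMonomials]
  show monomial v (1 : ℂ) = _
  rw [monomial_eq, C_1, one_mul, Finsupp.prod_fintype _ _ (fun i => pow_zero _),
    Fin.prod_univ_two]

theorem Tht_basis (ξ : Polynomial ℂ →ₗ[ℂ] ℂ) (j e : ℕ) (p : ℕ → ℕ) (v : Fin 2 →₀ ℕ) :
    Tht ξ j e p ((basisMonomials (Fin 2) ℂ) v) =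
      if v 0 = j then Polynomial.monomial (p (v 1)) (ξ (Polynomial.X ^ (e + v 1))) else 0 := by
  unfold Tht
  rw [Basis.constr_basis]

/-- Values at `s`. -/
theorem Tht_eval (ξ : Polynomial ℂ →ₗ[ℂ] ℂ) (j e : ℕ) (b ψ ψ' : ℕ)
    (hX : ∀ a b : ℕ, XF ξ j (X 0 ^ a * X 1 ^ b) = if a = j then ξ (Polynomial.X ^ b) else 0)
    (hx : ∀ b' : ℕ, ξ (Polynomial.X ^ (e + b')) ≠ 0 → ψ ≤ ψ' + b * b') (s : ℂ) (P : R2) :
    s ^ ψ * (Tht ξ j e (fun b' => ψ' + b * b' - ψ) P).eval s =
      s ^ ψ' * XF ξ j (X 1 ^ e * sc (s ^ b) P) := by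
  have h : (s ^ ψ) • ((Polynomial.leval s) ∘ₗ Tht ξ j e (fun b' => ψ' + b * b' - ψ)) =
      (s ^ ψ') • (XF ξ j ∘ₗ LinearMap.mulLeft ℂ ((X 1 : R2) ^ e) ∘ₗ (sc (s ^ b)).toLinearMap) := by
    apply (basisMonomials (Fin 2) ℂ).ext
    intro v
    rw [LinearMap.smul_apply, LinearMap.smul_apply, LinearMap.comp_apply, LinearMap.comp_apply,
      LinearMap.comp_apply, Tht_basis, mono_eq]
    have hs : (LinearMap.mulLeft ℂ ((X 1 : R2) ^ e)) ((sc (s ^ b)).toLinearMap
        (X 0 ^ (v 0) * X 1 ^ (v 1))) = (s ^ (b * v 1)) • ((X 0 : R2) ^ (v 0) * X 1 ^ (e + v 1)) := by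
      rw [LinearMap.mulLeft_apply, AlgHom.toLinearMap_apply, map_mul, map_pow, map_pow]
      unfold sc
      rw [aeval_X, aeval_X]
      simp only [Matrix.cons_val_zero, Matrix.cons_val_one]
      rw [MvPolynomial.smul_eq_C_mul, mul_pow, ← C_pow, ← pow_mul, pow_add]
      ring
    rw [hs, map_smul, hX]
    by_cases hj : v 0 = j
    · rw [if_pos hj, if_pos hj]
      simp only [Polynomial.leval_apply, Polynomial.eval_monomial, smul_eq_mul]
      by_cases h0 : ξ (Polynomial.X ^ (e + v 1)) = 0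
      · rw [h0]
        ring
      · have h1 := hx _ h0
        have h2 : s ^ ψ * s ^ (ψ' + b * v 1 - ψ) = s ^ ψ' * s ^ (b * v 1) := by
          rw [← pow_add, ← pow_add]
          congr 1
          omega
        calc s ^ ψ * (ξ (Polynomial.X ^ (e + v 1)) * s ^ (ψ' + b * v 1 - ψ))
            = ξ (Polynomial.X ^ (e + v 1)) * (s ^ ψ * s ^ (ψ' + b * v 1 - ψ)) := by ring
          _ = ξ (Polynomial.X ^ (e + v 1)) * (s ^ ψ' * s ^ (b * v 1)) := by rw [h2]
          _ = _ := by ring
    · rw [if_neg hj, if_neg hj, map_zero, smul_zero, smul_zero, smul_zero]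
  have h3 := LinearMap.congr_fun h P
  simpa only [LinearMap.smul_apply, LinearMap.comp_apply, Polynomial.leval_apply, smul_eq_mul,
    LinearMap.mulLeft_apply, AlgHom.toLinearMap_apply] using h3

/-- Values at `0`. -/
theorem Tht_zero (ξ : Polynomial ℂ →ₗ[ℂ] ℂ) (j e : ℕ) (p : ℕ → ℕ) (δ : ℂ)
    (h : ∀ b' : ℕ, (0 : ℂ) ^ (p b') * ξ (Polynomial.X ^ (e + b')) = if b' = 0 then δ else 0)
    (P : R2) :
    (Tht ξ j e p P).eval 0 = δ * coeff (Finsupp.single 0 j) P := by
  have h1 : (Polynomial.leval (0 : ℂ)) ∘ₗ Tht ξ j e p =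
      δ • (lcoeff ℂ (Finsupp.single (0 : Fin 2) j)) := by
    apply (basisMonomials (Fin 2) ℂ).ext
    intro v
    rw [LinearMap.smul_apply, LinearMap.comp_apply, Tht_basis, coe_basisMonomials]
    rw [lcoeff_apply]
    show _ = δ • coeff _ (monomial v (1 : ℂ))
    rw [coeff_monomial]
    by_cases hj : v 0 = j
    · rw [if_pos hj, Polynomial.leval_apply, Polynomial.eval_monomial, mul_comm, h]
      by_cases h0 : v 1 = 0
      · have hv : v = Finsupp.single 0 j := by
          ext i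
          fin_cases i
          · simpa using hj
          · simpa using h0
        rw [if_pos h0, if_pos hv, smul_eq_mul, mul_one]
      · have hv : v ≠ Finsupp.single 0 j := by
          intro hv
          apply h0
          rw [hv]
          simp
        rw [if_neg h0, if_neg hv, smul_zero]
    · have hv : v ≠ Finsupp.single 0 j := by
        intro hv
        apply hj
        rw [hv]
        simp
      rw [if_neg hj, if_neg hv, map_zero, smul_zero]
  have h2 := LinearMap.congr_fun h1 P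
  simpa only [LinearMap.smul_apply, LinearMap.comp_apply, Polynomial.leval_apply, smul_eq_mul,
    lcoeff_apply] using h2

/-- The substitution `X 0 ↦ σ`, `X 1 ↦ 0`. -/
def pr0 : R2 →ₐ[ℂ] Polynomial ℂ := aeval ![Polynomial.X, 0]

theorem coeff_pr0 (P : R2) (j : ℕ) : (pr0 P).coeff j = coeff (Finsupp.single 0 j) P := by
  have h1 : (Polynomial.lcoeff ℂ j) ∘ₗ pr0.toLinearMap =
      (lcoeff ℂ (Finsupp.single (0 : Fin 2) j)) := by
    apply (basisMonomials (Fin 2) ℂ).ext
    intro v
    rw [LinearMap.comp_apply, AlgHom.toLinearMap_apply, mono_eq, map_mul, map_pow, map_pow]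
    unfold pr0
    rw [aeval_X, aeval_X]
    simp only [Matrix.cons_val_zero, Matrix.cons_val_one]
    rw [← mono_eq, coe_basisMonomials]
    show _ = coeff _ (monomial v (1 : ℂ))
    rw [coeff_monomial, Polynomial.lcoeff_apply]
    by_cases h0 : v 1 = 0
    · rw [h0, pow_zero, mul_one, Polynomial.coeff_X_pow]
      by_cases hj : j = v 0
      · have hv : v = Finsupp.single 0 j := by
          ext i
          fin_cases i
          · simpa using hj.symm
          · simpa using h0
        rw [if_pos hj, if_pos hv]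
      · have hv : v ≠ Finsupp.single 0 j := by
          intro hv
          apply hj
          rw [hv]
          simp
        rw [if_neg hj, if_neg hv]
    · have hv : v ≠ Finsupp.single 0 j := by
        intro hv
        apply h0
        rw [hv]
        simp
      rw [if_neg hv, zero_pow h0, mul_zero, Polynomial.coeff_zero]
  have h2 := LinearMap.congr_fun h1 P
  simpa only [LinearMap.comp_apply, AlgHom.toLinearMap_apply, Polynomial.lcoeff_apply,
    lcoeff_apply] using h2

/-- The set `S_j` of levels. -/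
def Sj (m N l j : ℕ) : Finset ℕ := (Finset.range (m + 1)).filter fun i => j < ee m N l i

theorem ee_le {m N l i : ℕ} (hN : N ≤ m) (hl : l ≤ m) (hi : i ≤ m) : ee m N l i ≤ N := by
  unfold Helper66.SB.ee
  split_ifs <;> omega

/-- `G_LIM` for one pair `(j, i)`. -/
theorem one_pair (hXI : G_XI) (hXV : G_XV) (hCH : G_CH) (hPSI : G_PSI)
    (F : R2) (R : Fin 2 → ℂ) (m N l c β : ℕ) (hN : N ≤ m) (hl : l ≤ m)
    (hc : m * (m + 1) < c) (hβ : (c + 1) * (m + 1) < β)
    (φ : Polynomial ℂ) (hφ0 : φ.coeff 0 = 0)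
    (U Q : R2) (hU : ch R φ F = X 1 * U + X 0 ^ (m + 1) * Q)
    (j : ℕ) (i : Fin (m + 1)) (hj : j < ee m N l i) :
    ∃ Λ : (Fin (m + 1) → R2) →ₗ[ℂ] Polynomial ℂ,
      (∀ (s : ℂ) (g : Fin (m + 1) → R2), s ≠ 0 →
        (∑ i : Fin (m + 1), C (s ^ (β * (i : ℕ) + gm c i)) * F ^ (m - (i : ℕ)) * g i) ∈
          mI ![R 0, R 1 + s ^ (β + th c l)] ^ N →
        (Λ g).eval s = 0) ∧
      ∀ g : Fin (m + 1) → R2, (Λ g).eval 0 =
        coeff (Finsupp.single 0 j) (U ^ (m - (i : ℕ)) * ch R φ (g i)) := by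
  have him : (i : ℕ) ≤ m := by omega
  have hjN : j < N := lt_of_lt_of_le hj (ee_le hN hl him)
  obtain ⟨hcard, hord, hbd⟩ := hPSI m N l c j hc hl hN hjN
  -- the functional
  have hcard2 : ((Sj m N l j).image fun i' => m - i').card = N - j := by
    rw [Finset.card_image_of_injOn]
    · exact hcard
    · intro a ha a' ha' h
      have h1 : a < m + 1 := Finset.mem_range.1 (Finset.mem_filter.1 ha).1
      have h2 : a' < m + 1 := Finset.mem_range.1 (Finset.mem_filter.1 ha').1
      simp only at h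
      omega
  have hiS : (i : ℕ) ∈ Sj m N l j := by
    unfold Sj
    rw [Finset.mem_filter, Finset.mem_range]
    exact ⟨i.2, hj⟩
  obtain ⟨ξ, hξ1, hξ2⟩ := hXI ((Sj m N l j).image fun i' => m - i') (m - (i : ℕ))
    (Finset.mem_image_of_mem _ hiS)
  rw [hcard2] at hξ2
  obtain ⟨hX1, hX2, hX3⟩ := hXV N j ξ
  have hX4 := hX3 hjN hξ2
  -- weights
  set ψ : ℕ → ℕ := fun i' => th c l * (m - i') + gm c i' with hψ
  set b : ℕ := β + th c l with hb
  have hψb : ψ i < b := by
    have := hbd i him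
    simp only [hψ]
    omega
  -- the values of `ξ`
  have hval : ∀ i' : ℕ, i' ≤ m → ξ (Polynomial.X ^ (m - i')) ≠ 0 → i' = i ∨ ψ i < ψ i' := by
    intro i' hi' hne
    by_cases h1 : j < ee m N l i'
    · left
      by_contra h2
      apply hne
      rw [hξ1 (m - i') (Finset.mem_image_of_mem _ (by
        unfold Sj
        rw [Finset.mem_filter, Finset.mem_range]
        exact ⟨by omega, h1⟩)), if_neg (by omega)]
    · right
      exact hord i i' him hi' hj (by omega)
  have hx : ∀ i' : ℕ, i' ≤ m → ∀ b' : ℕ, ξ (Polynomial.X ^ (m - i' + b')) ≠ 0 →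
      ψ i ≤ ψ i' + b * b' := by
    intro i' hi' b' hne
    rcases Nat.eq_zero_or_pos b' with rfl | hb'
    · rw [add_zero] at hne
      rcases hval i' hi' hne with rfl | h
      · omega
      · omega
    · have : b ≤ b * b' := Nat.le_mul_of_pos_right b hb'
      omega
  -- the map
  refine ⟨∑ i' : Fin (m + 1), Tht ξ j (m - (i' : ℕ)) (fun b' => ψ i' + b * b' - ψ i) ∘ₗ
    LinearMap.mulLeft ℂ (U ^ (m - (i' : ℕ))) ∘ₗ (ch R φ).toLinearMap ∘ₗ LinearMap.proj i',
    ?_, ?_⟩
  · intro s g hs hf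
    have h1 : XF ξ j (sc (s ^ b) (ch R φ
        (∑ i : Fin (m + 1), C (s ^ (β * (i : ℕ) + gm c i)) * F ^ (m - (i : ℕ)) * g i))) = 0 :=
      hX4 _ ((hCH R φ hφ0).2.2 _ _ _ hf)
    have h2 : ∀ i' : Fin (m + 1), XF ξ j (sc (s ^ b) (ch R φ
        (C (s ^ (β * (i' : ℕ) + gm c i')) * F ^ (m - (i' : ℕ)) * g i'))) =
        s ^ (β * m + ψ i) * (Tht ξ j (m - (i' : ℕ)) (fun b' => ψ i' + b * b' - ψ i)
          (U ^ (m - (i' : ℕ)) * ch R φ (g i'))).eval s := by
      intro i'
      have hi' : (i' : ℕ) ≤ m := by omega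
      have hgo := Tht_eval ξ j (m - (i' : ℕ)) b (ψ i) (ψ i') hX1 (hx i' hi') s
        (U ^ (m - (i' : ℕ)) * ch R φ (g i'))
      rw [pow_add s (β * m) (ψ i), mul_assoc (s ^ (β * m)), hgo]
      -- expand the left side
      set e : ℕ := m - (i' : ℕ) with he
      have hdiv : X 0 ^ (m + 1) ∣ sc (s ^ b) (ch R φ (F ^ e)) -
          C ((s ^ b) ^ e) * X 1 ^ e * sc (s ^ b) (U ^ e) := by
        have h3 : sc (s ^ b) (ch R φ (F ^ e)) =
            (C (s ^ b) * X 1 * sc (s ^ b) U + X 0 ^ (m + 1) * sc (s ^ b) Q) ^ e := by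
          rw [map_pow, map_pow, hU, map_add, map_mul, map_mul, map_pow]
          have h4 : sc (s ^ b) (X 1) = C (s ^ b) * X 1 := by
            unfold sc
            rw [aeval_X]
            simp
          have h5 : sc (s ^ b) (X 0) = X 0 := by
            unfold sc
            rw [aeval_X]
            simp
          rw [h4, h5]
        have h6 : C ((s ^ b) ^ e) * X 1 ^ e * sc (s ^ b) (U ^ e) =
            (C (s ^ b) * X 1 * sc (s ^ b) U) ^ e := by
          rw [map_pow (sc (s ^ b)) U e, mul_pow, mul_pow, C_pow (s ^ b) e]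
        rw [h3, h6]
        refine dvd_trans ?_ (sub_dvd_pow_sub_pow _ _ e)
        rw [add_sub_cancel_left]
        exact dvd_mul_right _ _
      obtain ⟨Z, hZ⟩ := hdiv
      have h7 : sc (s ^ b) (ch R φ (C (s ^ (β * (i' : ℕ) + gm c i')) * F ^ e * g i')) =
          (s ^ (β * (i' : ℕ) + gm c i') * (s ^ b) ^ e) •
            (X 1 ^ e * sc (s ^ b) (U ^ e * ch R φ (g i'))) +
          X 0 ^ (m + 1) * (C (s ^ (β * (i' : ℕ) + gm c i')) * Z * sc (s ^ b) (ch R φ (g i'))) := by
        have h8 : sc (s ^ b) (ch R φ (C (s ^ (β * (i' : ℕ) + gm c i')))) =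
            C (s ^ (β * (i' : ℕ) + gm c i')) := by
          rw [← algebraMap_eq, AlgHom.commutes, AlgHom.commutes]
        rw [map_mul, map_mul, map_mul, map_mul, h8, sub_eq_iff_eq_add.1 hZ,
          MvPolynomial.smul_eq_C_mul, C_mul, map_mul (sc (s ^ b))]
        ring
      rw [h7, map_add, hX2 (m + 1) _ (by omega), add_zero, map_smul, smul_eq_mul, ← mul_assoc]
      congr 1
      rw [← pow_mul, ← pow_add, ← pow_add]
      congr 1
      simp only [hψ, hb]
      rw [← he]
      have hk : (i' : ℕ) + e = m := by omega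
      calc β * (i' : ℕ) + gm c i' + (β + th c l) * e
          = β * ((i' : ℕ) + e) + (th c l * e + gm c i') := by ring
        _ = _ := by rw [hk]
    rw [map_sum, map_sum, map_sum, Finset.sum_congr rfl (fun i' _ => h2 i'), ← Finset.mul_sum] at h1
    rcases mul_eq_zero.1 h1 with h | h
    · exact absurd h (pow_ne_zero _ hs)
    · rw [LinearMap.sum_apply, Polynomial.eval_finsetSum]
      exact h
  · intro g
    rw [LinearMap.sum_apply, Polynomial.eval_finsetSum]
    have h2 : ∀ i' : Fin (m + 1), (Tht ξ j (m - (i' : ℕ)) (fun b' => ψ i' + b * b' - ψ i)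
        (U ^ (m - (i' : ℕ)) * ch R φ (g i'))).eval 0 = (if i' = i then (1 : ℂ) else 0) *
            coeff (Finsupp.single 0 j) (U ^ (m - (i' : ℕ)) * ch R φ (g i')) := by
      intro i'
      have hi' : (i' : ℕ) ≤ m := by omega
      refine Tht_zero ξ j (m - (i' : ℕ)) (fun b' => ψ i' + b * b' - ψ i)
        (if i' = i then (1 : ℂ) else 0) ?_ _
      intro b'
      rcases Nat.eq_zero_or_pos b' with rfl | hb'
      · rw [if_pos rfl, add_zero, mul_zero, add_zero]
        by_cases h0 : i' = i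
        · subst h0
          rw [if_pos rfl, Nat.sub_self, pow_zero, one_mul,
            hξ1 _ (Finset.mem_image_of_mem _ hiS), if_pos rfl]
        · rw [if_neg h0]
          by_cases hne : ξ (Polynomial.X ^ (m - (i' : ℕ))) = 0
          · rw [hne, mul_zero]
          · rcases hval i' hi' hne with h | h
            · exact absurd (Fin.ext h) h0
            · rw [zero_pow (by omega), zero_mul]
      · have : b ≤ b * b' := Nat.le_mul_of_pos_right b hb'
        rw [if_neg (by omega), zero_pow (by omega), zero_mul]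
    refine (Finset.sum_congr rfl (fun i' _ => h2 i')).trans ?_
    rw [Finset.sum_eq_single i]
    · rw [if_pos rfl, one_mul]
    · intro i' _ h
      rw [if_neg h, zero_mul]
    · intro h
      exact absurd (Finset.mem_univ _) h

/-- LIM. -/
theorem gLIM (hBR : G_BR) (hDO : G_DO) (hXI : G_XI) (hXV : G_XV) (hCH : G_CH) (hPSI : G_PSI) :
    G_LIM := by
  intro F R m N l c β hF hFy hN hl hc hβ
  obtain ⟨φ, hφ0, hφ⟩ := hBR F R hF hFy (m + 1)
  obtain ⟨U, Q, hU, hU0⟩ := (hCH R φ hφ0).1 F (m + 1) (by omega) hφ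
  have key := one_pair hXI hXV hCH hPSI F R m N l c β hN hl hc hβ φ hφ0 U Q hU
  classical
  choose L hL1 hL2 using key
  set Ω : Fin N × Fin (m + 1) → ((Fin (m + 1) → R2) →ₗ[ℂ] Polynomial ℂ) := fun x =>
    if h : (x.1 : ℕ) < ee m N l x.2 then L x.1 x.2 h else 0 with hΩ
  refine ⟨N * (m + 1), fun a => Ω (finProdFinEquiv.symm a), ?_, ?_⟩
  · intro s g hs hf a
    simp only [hΩ]
    split_ifs with h
    · exact hL1 _ _ h s g hs hf
    · rw [LinearMap.zero_apply, Polynomial.eval_zero]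
  · intro g hg i
    have him : (i : ℕ) ≤ m := by omega
    have hcoef : ∀ j < ee m N l i,
        coeff (Finsupp.single 0 j) (U ^ (m - (i : ℕ)) * ch R φ (g i)) = 0 := by
      intro j hj
      have hjN : j < N := lt_of_lt_of_le hj (ee_le hN hl him)
      have h1 := hg (finProdFinEquiv (⟨j, hjN⟩, i))
      have h1 : (Ω (finProdFinEquiv.symm (finProdFinEquiv (⟨j, hjN⟩, i))) g).eval 0 = 0 := h1
      rw [Equiv.symm_apply_apply] at h1
      simp only [hΩ] at h1
      rw [dif_pos hj, hL2 _ _ hj] at h1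
      exact h1
    have hpr : pr0 (ch R φ (g i)) = br R φ (g i) := by
      ext j
      rw [coeff_pr0, (hCH R φ hφ0).2.1]
    have hdvd : Polynomial.X ^ (ee m N l i) ∣ pr0 (U ^ (m - (i : ℕ))) * br R φ (g i) := by
      rw [Polynomial.X_pow_dvd_iff]
      intro j hj
      rw [← hpr, ← map_mul, coeff_pr0]
      exact hcoef j hj
    have hndvd : ¬ Polynomial.X ∣ pr0 (U ^ (m - (i : ℕ))) := by
      rw [Polynomial.X_dvd_iff, map_pow]
      rw [Polynomial.coeff_zero_eq_eval_zero, Polynomial.eval_pow,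
        ← Polynomial.coeff_zero_eq_eval_zero, coeff_pr0, Finsupp.single_zero, hU0]
      exact pow_ne_zero _ hFy
    have hdvd2 : Polynomial.X ^ (ee m N l i) ∣ br R φ (g i) :=
      Polynomial.prime_X.pow_dvd_of_dvd_mul_left _ hndvd hdvd
    exact hDO F (g i) R φ (m + 1) (ee m N l i) hφ0 hφ
      ((ee_le hN hl him).trans (by omega)) hdvd2

end Pool.Agent.Helper63.SB
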